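import Pool.Agent.Q248.KN.Signed

/-!
# The signed `[0,s]`-critical number of cyclic groups
-/

namespace Pool.Agent.Results.MP_c7e63d_co.AllGroups

open Pool.Agent.Q248.KN

/-- For all positive integers `n` and `s`, `χ_±(ℤ_n, [0,s]) = v_±(n, s) + 1`. -/
theorem result (n s : ℕ) (hn : 0 < n) (hs : 0 < s) : (chi n s : ℤ) = vpm n s + 1 :=
  chi_eq n s hn hs

end Pool.Agent.Results.MP_c7e63d_co.AllGroups
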